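import Pool.Agent.Lib.MP_dc7230_lc.Main

/-!
# MP_dc7230_lc: Kurepa trees whose branch spaces are not continuous images

Assume `2 ^ ℵ₀ = ℵ₁` and `2 ^ ℵ₁ = ℵ₂` (both follow from GCH) and that no `ω₂`-Kurepa tree
`S ⊆ ^{<ω₂} ω₂` has a body `[S]` which is a continuous image of `^{ω₂} ω₂`.  Then the ordinal `ω₃`
(of the universe) is an inaccessible cardinal in `L`.
All definitions are in `Pool/Agent/Lib/MP_dc7230_lc/Defs.lean`.
-/

namespace Pool.Agent.Results.MP_dc7230_lc.OmegaThreeInaccessibleInL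

open Pool.MP_dc7230_lc

theorem result (hCH : (2 : Cardinal.{0}) ^ Cardinal.aleph.{0} 0 = Cardinal.aleph 1)
    (h2 : (2 : Cardinal.{0}) ^ Cardinal.aleph.{0} 1 = Cardinal.aleph 2)
    (h : ∀ S : Set Seq, IsKurepa S → ¬ IsContImage S) :
    IsInaccessibleInL (Ordinal.omega 3) :=
  main (by rw [← Cardinal.aleph_zero]; exact hCH) h2 h

end Pool.Agent.Results.MP_dc7230_lc.OmegaThreeInaccessibleInL
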